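import Mathlib

set_option autoImplicit false

/-!
A Mellin transform of a positive function which is close to an exponential on both sides of its
centre has no zero with small imaginary part.
-/

namespace Pool.Agent.Helper99.RF

open Complex Set MeasureTheory Filter Topology

lemma exp_lower {u : ℝ} (hu : 0 ≤ u) : 1 + 3 / 2 * u ^ 2 ≤ Real.exp u := by
  have h := Real.sum_le_exp_of_nonneg hu 6
  simp only [Finset.sum_range_succ, Finset.sum_range_zero, Nat.factorial] at h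
  norm_num at h
  refine le_trans ?_ h
  have key : 0 ≤ u * (1 - u + u ^ 2 / 6 + u ^ 3 / 24 + u ^ 4 / 120) := by
    refine mul_nonneg hu ?_
    nlinarith [sq_nonneg (u ^ 2 + 5 / 2 * u - 7), sq_nonneg (u ^ 2 - 27 / 10), sq_nonneg (u - 8 / 5),
      sq_nonneg (u ^ 2 - 8 / 5 * u), pow_nonneg hu 3]
  nlinarith

lemma log_sq_le {r : ℝ} (hr : 1 ≤ r) : (Real.log r) ^ 2 ≤ 2 / 3 * (r - 1) := by
  have h := exp_lower (Real.log_nonneg hr)
  rw [Real.exp_log (by linarith)] at h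
  linarith

lemma rpow_pair_bounds {r a : ℝ} (hr : 1 ≤ r) (ha : 0 ≤ a) (ha' : a ≤ 1 / 2) :
    2 ≤ r ^ a + r ^ (-a) ∧ r ^ a + r ^ (-a) ≤ 2 + (r - 1) / 5 := by
  have hr0 : 0 < r := by linarith
  set x := r ^ a with hx
  set y := r ^ (1 / 2 : ℝ) with hy
  have hx1 : 1 ≤ x := Real.one_le_rpow hr ha
  have hxy : x ≤ y := Real.rpow_le_rpow_of_exponent_le hr ha'
  have hy2 : y * y = r := by
    rw [hy, ← Real.rpow_add hr0]
    norm_num
  have hxi : r ^ (-a) = x⁻¹ := Real.rpow_neg hr0.le a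
  rw [hxi]
  have hx0 : 0 < x := by linarith
  have hy0 : 0 < y := by linarith
  have e1 : x + x⁻¹ = 2 + (x - 1) ^ 2 / x := by field_simp; ring
  have e2 : y + y⁻¹ = 2 + (y - 1) ^ 2 / y := by field_simp; ring
  refine ⟨by rw [e1]; have : 0 ≤ (x - 1) ^ 2 / x := by positivity
             linarith, ?_⟩
  have h1 : x + x⁻¹ ≤ y + y⁻¹ := by
    have e3 : y + y⁻¹ - (x + x⁻¹) = (y - x) * (x * y - 1) / (x * y) := by field_simp; ring
    have h2 : 0 ≤ (y - x) * (x * y - 1) / (x * y) := by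
      have : 1 ≤ x * y := by nlinarith
      have h3 : 0 ≤ y - x := by linarith
      have h4 : 0 ≤ x * y - 1 := by linarith
      positivity
    linarith
  refine h1.trans ?_
  rw [e2, ← hy2]
  have h3 : (y - 1) ^ 2 / y ≤ (y * y - 1) / 5 := by
    rw [div_le_div_iff₀ hy0 (by norm_num)]
    have : 1 ≤ y := by linarith
    nlinarith [mul_nonneg (sub_nonneg.mpr this) (sq_nonneg (y - 2))]
  linarith

variable {g : ℝ → ℝ} {c c₁ c₂ a b : ℝ}

/-- The pointwise lower bound. -/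
lemma point_bound (hc₁ : 0 < c₁) (ha : 0 ≤ a) (ha' : a ≤ 1 / 2) {r u v : ℝ} (hr : 1 ≤ r)
    (hu : c₁ * Real.exp (-c * r) ≤ u ∧ u ≤ c₂ * Real.exp (-c * r))
    (hv : c₁ * Real.exp (-c * r) ≤ v ∧ v ≤ c₂ * Real.exp (-c * r)) :
    (2 * c₁ - c₂ * b ^ 2 / 3 * (r - 1) * (2 + (r - 1) / 5)) * Real.exp (-c * r)
      ≤ Real.cos (b * Real.log r) * (r ^ a * u + r ^ (-a) * v) := by
  have hr0 : 0 < r := by linarith
  have he := Real.exp_pos (-c * r)
  set E := Real.exp (-c * r) with hE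
  obtain ⟨h1, h2⟩ := rpow_pair_bounds hr ha ha'
  have hA : 0 < r ^ a := Real.rpow_pos_of_pos hr0 _
  have hB : 0 < r ^ (-a) := Real.rpow_pos_of_pos hr0 _
  have hc2 : 0 < c₂ := by
    have h3 : c₁ * E ≤ c₂ * E := hu.1.trans hu.2
    have h4 : c₁ ≤ c₂ := le_of_mul_le_mul_right h3 he
    linarith
  set Φ := r ^ a * u + r ^ (-a) * v with hΦ
  have hΦ1 : 2 * c₁ * E ≤ Φ := by
    have h3 : r ^ a * (c₁ * E) ≤ r ^ a * u := mul_le_mul_of_nonneg_left hu.1 hA.le
    have h4 : r ^ (-a) * (c₁ * E) ≤ r ^ (-a) * v := mul_le_mul_of_nonneg_left hv.1 hB.le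
    have h5 : 2 * (c₁ * E) ≤ (r ^ a + r ^ (-a)) * (c₁ * E) :=
      mul_le_mul_of_nonneg_right h1 (by positivity)
    nlinarith
  have hΦ2 : Φ ≤ (2 + (r - 1) / 5) * (c₂ * E) := by
    have h3 : r ^ a * u ≤ r ^ a * (c₂ * E) := mul_le_mul_of_nonneg_left hu.2 hA.le
    have h4 : r ^ (-a) * v ≤ r ^ (-a) * (c₂ * E) := mul_le_mul_of_nonneg_left hv.2 hB.le
    have h5 : (r ^ a + r ^ (-a)) * (c₂ * E) ≤ (2 + (r - 1) / 5) * (c₂ * E) :=
      mul_le_mul_of_nonneg_right h2 (by positivity)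
    nlinarith
  have hΦ0 : 0 ≤ Φ := le_trans (by positivity) hΦ1
  have hcos : 1 - (b * Real.log r) ^ 2 / 2 ≤ Real.cos (b * Real.log r) :=
    Real.one_sub_sq_div_two_le_cos
  have hL := log_sq_le hr
  have h6 : (b * Real.log r) ^ 2 / 2 ≤ b ^ 2 / 3 * (r - 1) := by
    rw [mul_pow]
    have := mul_le_mul_of_nonneg_left hL (sq_nonneg b)
    linarith
  have h7 : (1 - b ^ 2 / 3 * (r - 1)) * Φ ≤ Real.cos (b * Real.log r) * Φ :=
    mul_le_mul_of_nonneg_right (by linarith) hΦ0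
  refine le_trans ?_ h7
  have h8 : b ^ 2 / 3 * (r - 1) * Φ ≤ b ^ 2 / 3 * (r - 1) * ((2 + (r - 1) / 5) * (c₂ * E)) :=
    mul_le_mul_of_nonneg_left hΦ2 (by
      have : 0 ≤ r - 1 := by linarith
      positivity)
  nlinarith

/-- The integral of the lower bound. -/
lemma lower_integral (hc : 0 < c) (hc₂ : 0 < c₂)
    (hb : b ^ 2 * c₂ * (5 * c + 1) < 15 * c ^ 2 * c₁) :
    ∃ δ : ℝ, 0 < δ ∧ ∀ T : ℝ, 2 ≤ T → δ ≤ ∫ r in (1 : ℝ)..T,
      (2 * c₁ - c₂ * b ^ 2 / 3 * (r - 1) * (2 + (r - 1) / 5)) * Real.exp (-c * r) := by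
  set β := c₂ * b ^ 2 / 3 with hβ
  have hβ0 : 0 ≤ β := by positivity
  set D := -β / (5 * c) with hD
  set B := (-2 * β + 2 * D) / c with hB
  set A := (2 * c₁ + B) / c with hA
  have hD0 : D ≤ 0 := by rw [hD]; exact div_nonpos_of_nonpos_of_nonneg (by linarith) (by positivity)
  have hB0 : B ≤ 0 := by rw [hB]; exact div_nonpos_of_nonpos_of_nonneg (by linarith) hc.le
  have hA0 : 0 < A := by
    rw [hA]
    refine div_pos ?_ hc
    have e : 2 * c₁ + B = (2 / (15 * c ^ 2)) * (15 * c ^ 2 * c₁ - b ^ 2 * c₂ * (5 * c + 1)) := by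
      rw [hB, hD, hβ]
      field_simp
      ring
    rw [e]
    have : 0 < 15 * c ^ 2 * c₁ - b ^ 2 * c₂ * (5 * c + 1) := by linarith
    positivity
  have hder : ∀ r : ℝ, HasDerivAt (fun r : ℝ => -Real.exp (-c * r) * (A + B * (r - 1)
      + D * (r - 1) ^ 2))
      ((2 * c₁ - β * (r - 1) * (2 + (r - 1) / 5)) * Real.exp (-c * r)) r := by
    intro r
    have h1 : HasDerivAt (fun r : ℝ => -Real.exp (-c * r)) (-(Real.exp (-c * r) * (-c * 1))) r :=
      (((hasDerivAt_id r).const_mul (-c)).exp).neg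
    have h2 : HasDerivAt (fun r : ℝ => A + B * (r - 1) + D * (r - 1) ^ 2)
        (0 + B * 1 + D * (2 * (r - 1) ^ 1 * 1)) r := by
      have h3 : HasDerivAt (fun r : ℝ => r - 1) 1 r := (hasDerivAt_id r).sub_const 1
      exact ((hasDerivAt_const r A).add (h3.const_mul B)).add ((h3.pow 2).const_mul D)
    refine (h1.mul h2).congr_deriv ?_
    have e1 : c * D = -β / 5 := by rw [hD]; field_simp
    have e2 : c * B = -2 * β + 2 * D := by rw [hB]; field_simp
    have e3 : c * A = 2 * c₁ + B := by rw [hA]; field_simp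
    have e4 : -(Real.exp (-c * r) * (-c * 1)) * (A + B * (r - 1) + D * (r - 1) ^ 2)
        + -Real.exp (-c * r) * (0 + B * 1 + D * (2 * (r - 1) ^ 1 * 1))
        = Real.exp (-c * r) * (c * A + c * B * (r - 1) + c * D * (r - 1) ^ 2 - B
          - 2 * D * (r - 1)) := by ring
    rw [e4, e1, e2, e3]
    ring
  refine ⟨A * (Real.exp (-c) - Real.exp (-c * 2)), ?_, fun T hT => ?_⟩
  · have : Real.exp (-c * 2) < Real.exp (-c) := Real.exp_lt_exp.mpr (by linarith)
    exact mul_pos hA0 (by linarith)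
  · rw [intervalIntegral.integral_eq_sub_of_hasDerivAt (fun r _ => hder r)
      (Continuous.intervalIntegrable (by fun_prop) _ _)]
    have e1 : Real.exp (-c * T) ≤ Real.exp (-c * 2) := Real.exp_le_exp.mpr (by nlinarith)
    have e2 := Real.exp_pos (-c * T)
    have e3 : 0 ≤ -(Real.exp (-c * T) * (B * (T - 1) + D * (T - 1) ^ 2)) := by
      have h3 : B * (T - 1) ≤ 0 := mul_nonpos_of_nonpos_of_nonneg hB0 (by linarith)
      have h4 : D * (T - 1) ^ 2 ≤ 0 := mul_nonpos_of_nonpos_of_nonneg hD0 (by positivity)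
      have h5 : Real.exp (-c * T) * (B * (T - 1) + D * (T - 1) ^ 2) ≤ 0 :=
        mul_nonpos_of_nonneg_of_nonpos e2.le (by linarith)
      linarith
    have e4 : A * Real.exp (-c * T) ≤ A * Real.exp (-c * 2) := mul_le_mul_of_nonneg_left e1 hA0.le
    rw [mul_one]
    nlinarith

lemma re_kernel {t : ℝ} (ht : 0 < t) (x : ℝ) :
    ((t : ℂ) ^ ((1 + a + b * I : ℂ) - 1) • ((x : ℝ) : ℂ)).re
      = t ^ a * Real.cos (b * Real.log t) * x := by
  rw [smul_eq_mul, Complex.re_mul_ofReal]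
  congr 1
  have ht' : (t : ℂ) ≠ 0 := by exact_mod_cast ht.ne'
  rw [Complex.cpow_def_of_ne_zero ht', ← Complex.ofReal_log ht.le, Complex.exp_re]
  have e1 : ((Real.log t : ℂ) * ((1 + a + b * I : ℂ) - 1)).re = Real.log t * a := by
    simp
  have e2 : ((Real.log t : ℂ) * ((1 + a + b * I : ℂ) - 1)).im = b * Real.log t := by
    simp [mul_comm]
  rw [e1, e2, Real.rpow_def_of_pos ht]

/-- **The real part of a Mellin transform is positive.** -/
theorem re_mellin_pos (hc : 0 < c) (hc₁ : 0 < c₁)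
    (h1 : ∀ r, 1 ≤ r → c₁ * Real.exp (-c * r) ≤ g r ∧ g r ≤ c₂ * Real.exp (-c * r))
    (h2 : ∀ r, 1 ≤ r → c₁ * Real.exp (-c * r) ≤ g r⁻¹ / r ^ 2 ∧
      g r⁻¹ / r ^ 2 ≤ c₂ * Real.exp (-c * r))
    (ha : 0 ≤ a) (ha' : a ≤ 1 / 2) (hb : b ^ 2 * c₂ * (5 * c + 1) < 15 * c ^ 2 * c₁)
    (hg : MellinConvergent (fun t => ((g t : ℝ) : ℂ)) (1 + a + b * I)) :
    0 < (mellin (fun t => ((g t : ℝ) : ℂ)) (1 + a + b * I)).re := by
  have hc₂ : 0 < c₂ := by
    have h3 := (h1 1 le_rfl).1.trans (h1 1 le_rfl).2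
    have h4 : c₁ ≤ c₂ := le_of_mul_le_mul_right h3 (Real.exp_pos _)
    linarith
  set φ : ℝ → ℝ := fun t => t ^ a * Real.cos (b * Real.log t) * g t with hφ
  have hint : IntegrableOn φ (Ioi 0) := by
    have h3 : IntegrableOn (fun t : ℝ => ((t : ℂ) ^ ((1 + a + b * I : ℂ) - 1)
        • ((g t : ℝ) : ℂ)).re) (Ioi 0) := hg.re
    exact h3.congr_fun (fun t ht => re_kernel ht _) measurableSet_Ioi
  have hre : (mellin (fun t => ((g t : ℝ) : ℂ)) (1 + a + b * I)).re = ∫ t in Ioi (0 : ℝ), φ t := by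
    unfold mellin
    rw [← Complex.reCLM_apply, ← ContinuousLinearMap.integral_comp_comm _ hg]
    exact setIntegral_congr_fun measurableSet_Ioi (fun t ht => re_kernel ht _)
  -- the reflected part
  set ψ : ℝ → ℝ := fun t => (t ^ 2)⁻¹ * φ t⁻¹ with hψ
  have hrefl : ∀ f : ℝ → ℝ, (fun x : ℝ => (|(-1 : ℝ)| * x ^ ((-1 : ℝ) - 1)) • f (x ^ (-1 : ℝ)))
      =ᵐ[volume.restrict (Ioi 0)] fun x => (x ^ 2)⁻¹ * f x⁻¹ := by
    intro f
    refine (ae_restrict_iff' measurableSet_Ioi).mpr (Eventually.of_forall fun x hx => ?_)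
    have hx0 : (0 : ℝ) < x := hx
    simp only
    rw [Real.rpow_neg_one, abs_neg, abs_one, one_mul, smul_eq_mul,
      show ((-1 : ℝ) - 1) = -((2 : ℕ) : ℝ) by norm_num, Real.rpow_neg hx0.le, Real.rpow_natCast]
  have hψint : IntegrableOn ψ (Ioi 0) := by
    have h3 := (integrableOn_Ioi_comp_rpow_iff φ (p := -1) (by norm_num)).mpr hint
    exact (integrable_congr (hrefl φ)).mp h3
  have hsplit : ∫ t in Ioi (0 : ℝ), φ t = ∫ r in Ioi (1 : ℝ), (φ r + ψ r) := by
    have h3 : ∫ t in Ioi (0 : ℝ), φ t = (∫ t in Ioc (0 : ℝ) 1, φ t) + ∫ t in Ioi (1 : ℝ), φ t := by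
      rw [← setIntegral_union (by
        rw [Set.disjoint_left]
        intro x hx hx'
        exact absurd hx.2 (not_le.mpr hx')) measurableSet_Ioi
        (hint.mono_set Ioc_subset_Ioi_self)
        (hint.mono_set (Ioi_subset_Ioi zero_le_one)), Ioc_union_Ioi_eq_Ioi zero_le_one]
    have h4 : ∫ t in Ioc (0 : ℝ) 1, φ t = ∫ t in Ioi (1 : ℝ), ψ t := by
      have h5 : ∫ t in Ioc (0 : ℝ) 1, φ t
          = ∫ t in Ioi (0 : ℝ), (Ioc (0 : ℝ) 1).indicator φ t := by
        rw [setIntegral_indicator measurableSet_Ioc]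
        congr 2
        ext x
        simp only [mem_Ioc, mem_inter_iff, mem_Ioi]
        tauto
      rw [h5, ← integral_comp_rpow_Ioi ((Ioc (0 : ℝ) 1).indicator φ) (p := -1) (by norm_num)]
      have h6 := hrefl ((Ioc (0 : ℝ) 1).indicator φ)
      rw [integral_congr_ae h6]
      have h7 : ∫ x in Ioi (0 : ℝ), (x ^ 2)⁻¹ * (Ioc (0 : ℝ) 1).indicator φ x⁻¹
          = ∫ x in Ioi (0 : ℝ), (Ici (1 : ℝ)).indicator ψ x := by
        refine setIntegral_congr_fun measurableSet_Ioi (fun x hx => ?_)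
        have hx0 : (0 : ℝ) < x := hx
        simp only [Set.indicator]
        by_cases h8 : 1 ≤ x
        · have h9 : x⁻¹ ∈ Ioc (0 : ℝ) 1 := ⟨by positivity, inv_le_one_of_one_le₀ h8⟩
          rw [if_pos h9, if_pos (show x ∈ Ici (1 : ℝ) from h8)]
        · have h9 : x⁻¹ ∉ Ioc (0 : ℝ) 1 := by
            intro h10
            exact h8 ((inv_le_one₀ hx0).mp h10.2)
          rw [if_neg h9, if_neg (show x ∉ Ici (1 : ℝ) from h8), mul_zero]
      rw [h7, setIntegral_indicator measurableSet_Ici, ← integral_Ici_eq_integral_Ioi]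
      congr 2
      ext x
      simp only [mem_inter_iff, mem_Ioi, mem_Ici]
      constructor
      · rintro ⟨-, h⟩; exact h
      · intro h; exact ⟨by linarith, h⟩
    rw [h3, h4, integral_add (hint.mono_set (Ioi_subset_Ioi zero_le_one))
      (hψint.mono_set (Ioi_subset_Ioi zero_le_one)), add_comm]
  have hΦint : IntegrableOn (fun r => φ r + ψ r) (Ioi 1) :=
    (hint.mono_set (Ioi_subset_Ioi zero_le_one)).add (hψint.mono_set (Ioi_subset_Ioi zero_le_one))
  rw [hre, hsplit]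
  obtain ⟨δ, hδ, hT⟩ := lower_integral (c := c) (c₁ := c₁) (c₂ := c₂) (b := b) hc hc₂ hb
  refine hδ.trans_le ?_
  refine ge_of_tendsto (intervalIntegral_tendsto_integral_Ioi 1 hΦint tendsto_id) ?_
  filter_upwards [eventually_ge_atTop (2 : ℝ)] with T hT2
  refine (hT T hT2).trans ?_
  simp only [id]
  have h1T : (1 : ℝ) ≤ T := by linarith
  refine intervalIntegral.integral_mono_on h1T
    (Continuous.intervalIntegrable (by fun_prop) _ _) ?_ ?_
  · rw [intervalIntegrable_iff_integrableOn_Ioc_of_le h1T]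
    exact hΦint.mono_set Ioc_subset_Ioi_self
  · intro r hr
    have hr1 : 1 ≤ r := hr.1
    have hr0 : 0 < r := by linarith
    have h5 := point_bound (b := b) hc₁ ha ha' hr1 (h1 r hr1) (h2 r hr1)
    refine h5.trans (le_of_eq ?_)
    simp only [hφ, hψ]
    rw [Real.log_inv, mul_neg, Real.cos_neg, Real.inv_rpow hr0.le, Real.rpow_neg hr0.le]
    field_simp

end Pool.Agent.Helper99.RF
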