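import Pool.Agent.Helper99.RF.Ker
import Pool.Agent.Helper99.RF.Core
import Pool.Agent.Helper9.BSDL2.Sharp2

set_option autoImplicit false

/-!
The L-functions of `y² = x³ - x` and `y² = x³ - 4x` have no zero in the sector
`|arg (s - 1)| ≤ 3 π / 8`.
-/

namespace Pool.Agent.Helper99.RF

open Complex Set MeasureTheory Filter Topology HurwitzZeta Pool.Agent.Helper91.BSDL2
open Pool.Agent.Helper9.BSD Pool.Agent.Helper9.CN

/-- Nonvanishing of the Mellin transform from the two-sided bounds, `t₀` the centre. -/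
lemma mellin_GK_ne {e t₀ c c₁ c₂ a b : ℝ} (ht₀ : 0 < t₀) (hc : 0 < c) (hc₁ : 0 < c₁)
    (h1 : ∀ r, 1 ≤ r → c₁ * Real.exp (-c * r) ≤ GK e (t₀ * r) ∧
      GK e (t₀ * r) ≤ c₂ * Real.exp (-c * r))
    (h2 : ∀ r, 1 ≤ r → c₁ * Real.exp (-c * r) ≤ GK e (t₀ * r⁻¹) / r ^ 2 ∧
      GK e (t₀ * r⁻¹) / r ^ 2 ≤ c₂ * Real.exp (-c * r))
    (ha : 0 ≤ a) (ha' : a ≤ 1 / 2) (hb : b ^ 2 * c₂ * (5 * c + 1) < 15 * c ^ 2 * c₁) :
    mellin (fun t => ((GK e t : ℝ) : ℂ)) (1 + a + b * I) ≠ 0 := by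
  set s : ℂ := 1 + a + b * I with hs
  have hconv : MellinConvergent (fun t => ((GK e t : ℝ) : ℂ)) s := (mellin_GK e s).1
  have hconv' : MellinConvergent (fun t => ((GK e (t₀ * t) : ℝ) : ℂ)) s :=
    (MellinConvergent.comp_mul_left (f := fun t => ((GK e t : ℝ) : ℂ)) ht₀).mpr hconv
  have hpos := re_mellin_pos (g := fun r => GK e (t₀ * r)) hc hc₁ h1 h2 ha ha' hb hconv'
  have h3 := mellin_comp_mul_left (fun t => ((GK e t : ℝ) : ℂ)) s ht₀
  intro h0
  rw [h0, smul_zero] at h3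
  rw [h3] at hpos
  simp at hpos

lemma FE_ne_of_mellin {e : ℝ} {s : ℂ} (hs : 0 < s.re)
    (h : mellin (fun t => ((GK e t : ℝ) : ℂ)) s ≠ 0) : FE e s ≠ 0 := by
  unfold FE
  rw [(mellin_GK e s).2]
  have hG : Complex.Gamma s ≠ 0 := Complex.Gamma_ne_zero_of_re_pos hs
  have h1 : ((4 : ℕ) : ℂ) ^ (1 - 2 * s) ≠ 0 := by
    rw [Complex.cpow_def_of_ne_zero (by norm_num)]
    exact Complex.exp_ne_zero _
  have h2 : (Real.pi : ℂ) ^ s ≠ 0 := by
    rw [Complex.cpow_def_of_ne_zero (by exact_mod_cast Real.pi_ne_zero)]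
    exact Complex.exp_ne_zero _
  exact mul_ne_zero h1 (mul_ne_zero (mul_ne_zero h2 (inv_ne_zero hG)) h)

lemma FE_neg_one_ne {a b : ℝ} (ha : 0 ≤ a) (ha' : a ≤ 1 / 2) (hb : b ^ 2 ≤ 3 / 2) :
    FE (-1) (1 + a + b * I) ≠ 0 := by
  have hpi := Real.pi_gt_d2
  have hpi' := Real.pi_lt_d2
  refine FE_ne_of_mellin (by simp; linarith) ?_
  have h1 : ∀ r : ℝ, 1 ≤ r → 397 / 1600 * Real.exp (-(Real.pi / 4) * r) ≤ GK (-1) (4 * r) ∧
      GK (-1) (4 * r) ≤ 21 / 76 * Real.exp (-(Real.pi / 4) * r) := by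
    intro r hr
    have hr0 : 0 < r := by linarith
    have ht : (1 : ℝ) ≤ 4 * r := by linarith
    have e1 : Real.exp (-(Real.pi * (4 * r) / 16)) = Real.exp (-(Real.pi / 4) * r) := by
      congr 1; ring
    have hE := Real.exp_pos (-(Real.pi / 4) * r)
    have q1 : Real.exp (-(Real.pi * (4 * r) / 2)) ≤ 1 / 400 := by
      refine exp_neg_le_sq ?_
      nlinarith
    have q2 : Real.exp (-(Real.pi * (4 * r / 4))) ≤ 1 / 20 := by
      refine exp_neg_le ?_
      nlinarith
    have l1 := ok_lower ht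
    have u1 := ok_upper ht
    rw [e1] at l1 u1
    have hv : GK (-1) (4 * r) = ok (4 * r) * ev (4 * r / 4) := by
      rw [GK_neg_one, ev_quarter (by positivity)]
    have l2 : 1 ≤ ev (4 * r / 4) := ev_ge_one (by positivity)
    have u2 : ev (4 * r / 4) ≤ 21 / 19 := ev_le (by positivity) q2
    have l3 : 397 / 1600 * Real.exp (-(Real.pi / 4) * r) ≤ ok (4 * r) := by nlinarith
    have hok : 0 < ok (4 * r) := oddKernel_quarter_pos (by positivity)
    rw [hv]
    constructor
    · calc 397 / 1600 * Real.exp (-(Real.pi / 4) * r) ≤ ok (4 * r) * 1 := by linarith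
        _ ≤ _ := mul_le_mul_of_nonneg_left l2 hok.le
    · calc ok (4 * r) * ev (4 * r / 4) ≤ ok (4 * r) * (21 / 19) :=
            mul_le_mul_of_nonneg_left u2 hok.le
        _ ≤ 1 / 4 * Real.exp (-(Real.pi / 4) * r) * (21 / 19) :=
            mul_le_mul_of_nonneg_right u1 (by norm_num)
        _ = _ := by ring
  refine mellin_GK_ne (t₀ := 4) (c := Real.pi / 4) (c₁ := 397 / 1600) (c₂ := 21 / 76)
    (by norm_num) (by positivity) (by norm_num) h1 ?_ ha ha' ?_
  · intro r hr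
    have hr0 : 0 < r := by linarith
    have e2 : GK (-1) (4 * r⁻¹) / r ^ 2 = GK (-1) (4 * r) := by
      have h3 := GK_neg_refl (t := 4 * r) (by positivity)
      rw [show (16 / (4 * r) : ℝ) = 4 * r⁻¹ by field_simp; norm_num] at h3
      rw [h3]
      field_simp
      ring
    rw [e2]
    exact h1 r hr
  · have h4 : b ^ 2 * (21 / 76) * (5 * (Real.pi / 4) + 1)
        ≤ 3 / 2 * (21 / 76) * (5 * (Real.pi / 4) + 1) := by gcongr
    refine h4.trans_lt ?_
    nlinarith

lemma FE_one_ne {a b : ℝ} (ha : 0 ≤ a) (ha' : a ≤ 1 / 2) (hb : b ^ 2 ≤ 3 / 2) :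
    FE 1 (1 + a + b * I) ≠ 0 := by
  have hpi := Real.pi_gt_d2
  have hpi' := Real.pi_lt_d2
  refine FE_ne_of_mellin (by simp; linarith) ?_
  obtain ⟨w, hw0, hw2⟩ : ∃ w : ℝ, 0 < w ∧ w ^ 2 = 32 :=
    ⟨√32, by positivity, Real.sq_sqrt (by norm_num)⟩
  have hw5 : 56 / 10 ≤ w := by nlinarith
  have hw6 : w ≤ 57 / 10 := by nlinarith
  have hc : 0 < Real.pi * w / 16 := by positivity
  refine mellin_GK_ne (t₀ := w) (c := Real.pi * w / 16) (c₁ := 17 / 80) (c₂ := 21 / 76)
    hw0 hc (by norm_num) ?_ ?_ ha ha' ?_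
  · intro r hr
    have hr0 : 0 < r := by linarith
    have hwr : 56 / 10 ≤ w * r := by nlinarith
    have hpw : 17 ≤ Real.pi * (w * r) := by nlinarith
    have ht : (1 : ℝ) ≤ w * r := by linarith
    have e1 : Real.exp (-(Real.pi * (w * r) / 16)) = Real.exp (-(Real.pi * w / 16) * r) := by
      congr 1; ring
    have hE := Real.exp_pos (-(Real.pi * w / 16) * r)
    have q1 : Real.exp (-(Real.pi * (w * r) / 2)) ≤ 1 / 400 := exp_neg_le_sq (by linarith)
    have q2 : Real.exp (-(Real.pi * (w * r))) ≤ 1 / 20 := exp_neg_le (by linarith)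
    have q3 : Real.exp (-(Real.pi * (w * r) / 4)) ≤ 1 / 20 := exp_neg_le (by linarith)
    have q4 : Real.exp (-(2 * Real.pi * (w * r))) ≤ 1 / 20 := exp_neg_le (by linarith)
    have l1 := ok_lower ht
    have u1 := ok_upper ht
    rw [e1] at l1 u1
    have l2 : 1 ≤ ev (w * r) := ev_ge_one (by positivity)
    have u2 : ev (w * r) ≤ 21 / 19 := ev_le (by positivity) q2
    have l3 : 397 / 1600 * Real.exp (-(Real.pi * w / 16) * r) ≤ ok (w * r) := by nlinarith
    have hok : 0 < ok (w * r) := oddKernel_quarter_pos (by positivity)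
    have u4 : eh (w * r) ≤ 2 / 19 := by
      refine (eh_upper (by positivity) q4).trans ?_
      linarith
    have l4 : 0 < eh (w * r) := evenKernel_pos _ (by positivity)
    rw [GK_one]
    constructor
    · calc 17 / 80 * Real.exp (-(Real.pi * w / 16) * r)
          ≤ 397 / 1600 * Real.exp (-(Real.pi * w / 16) * r) * (17 / 19) := by linarith
        _ ≤ ok (w * r) * (17 / 19) := mul_le_mul_of_nonneg_right l3 (by norm_num)
        _ ≤ _ := mul_le_mul_of_nonneg_left (by linarith) hok.le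
    · calc ok (w * r) * (ev (w * r) - eh (w * r)) ≤ ok (w * r) * (21 / 19) :=
            mul_le_mul_of_nonneg_left (by linarith) hok.le
        _ ≤ 1 / 4 * Real.exp (-(Real.pi * w / 16) * r) * (21 / 19) :=
            mul_le_mul_of_nonneg_right u1 (by norm_num)
        _ = _ := by ring
  · intro r hr
    have hr0 : 0 < r := by linarith
    have hwr : 56 / 10 ≤ w * r := by nlinarith
    have hpw : 17 ≤ Real.pi * (w * r) := by nlinarith
    have e0 : GK 1 (w * r⁻¹) / r ^ 2 = 1 / 2 * (ok (w * r / 2) * eh (w * r / 8)) := by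
      have h3 := GK_one_refl (u := w * r) (by positivity)
      rw [show (32 / (w * r) : ℝ) = w * r⁻¹ by rw [← hw2]; field_simp] at h3
      rw [h3]
      field_simp
      rw [hw2]
      ring
    rw [e0]
    have ht : (1 : ℝ) ≤ w * r / 2 := by linarith
    have q1 : Real.exp (-(Real.pi * (w * r / 2) / 2)) ≤ 1 / 20 := exp_neg_le (by linarith)
    have q2 : Real.exp (-(2 * Real.pi * (w * r / 8))) ≤ 1 / 20 := exp_neg_le (by linarith)
    have l1 := ok_lower ht
    have u1 := ok_upper ht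
    have l2 := eh_lower (t := w * r / 8) (by positivity)
    have u2 := eh_upper (t := w * r / 8) (by positivity) q2
    have e1 : Real.exp (-(Real.pi * (w * r / 2) / 16)) * Real.exp (-(Real.pi * (w * r / 8) / 4))
        = Real.exp (-(Real.pi * w / 16) * r) := by
      rw [← Real.exp_add]; congr 1; ring
    have hA := Real.exp_pos (-(Real.pi * (w * r / 2) / 16))
    have hB := Real.exp_pos (-(Real.pi * (w * r / 8) / 4))
    set A := Real.exp (-(Real.pi * (w * r / 2) / 16)) with hAd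
    set B := Real.exp (-(Real.pi * (w * r / 8) / 4)) with hBd
    have l3 : 17 / 80 * A ≤ ok (w * r / 2) := by nlinarith
    rw [← e1]
    have hok : 0 < ok (w * r / 2) := oddKernel_quarter_pos (by positivity)
    constructor
    · calc 17 / 80 * (A * B) = 1 / 2 * ((17 / 80 * A) * (2 * B)) := by ring
        _ ≤ 1 / 2 * (ok (w * r / 2) * (2 * B)) := by gcongr
        _ ≤ _ := by gcongr
    · calc 1 / 2 * (ok (w * r / 2) * eh (w * r / 8))
          ≤ 1 / 2 * (ok (w * r / 2) * (2 * B * (20 / 19))) := by gcongr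
        _ ≤ 1 / 2 * (1 / 4 * A * (2 * B * (20 / 19))) := by gcongr
        _ ≤ _ := by nlinarith [mul_pos hA hB]
  · have hc2 : (Real.pi * w / 16) ^ 2 = Real.pi ^ 2 / 8 := by
      rw [div_pow, mul_pow, hw2]; ring
    have hcu : Real.pi * w / 16 ≤ 113 / 100 := by nlinarith
    have h4 : b ^ 2 * (21 / 76) * (5 * (Real.pi * w / 16) + 1)
        ≤ 3 / 2 * (21 / 76) * (5 * (Real.pi * w / 16) + 1) := by gcongr
    refine h4.trans_lt ?_
    rw [hc2]
    nlinarith

/-- The sector condition in terms of real and imaginary part. -/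
lemma im_sq_le_of_arg {z : ℂ} (hz : z ≠ 0) (h : |z.arg| ≤ 3 * Real.pi / 8) :
    0 < z.re ∧ z.im ^ 2 ≤ 6 * z.re ^ 2 := by
  have hpi := Real.pi_pos
  have h1 : |z.arg| < Real.pi / 2 := by linarith
  have hre : 0 < z.re := by
    rcases Complex.abs_arg_lt_pi_div_two_iff.mp h1 with h2 | h2
    · exact h2
    · exact absurd h2 hz
  refine ⟨hre, ?_⟩
  have htan := Complex.tan_arg z
  have h3 : |Real.tan z.arg| ≤ Real.tan (3 * Real.pi / 8) := by
    rw [abs_le] at h ⊢
    have hm : ∀ x y : ℝ, -(Real.pi / 2) < x → x ≤ y → y < Real.pi / 2 → Real.tan x ≤ Real.tan y := by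
      intro x y hx hxy hy
      exact Real.strictMonoOn_tan.monotoneOn ⟨hx, by linarith⟩ ⟨by linarith, hy⟩ hxy
    constructor
    · rw [← Real.tan_neg]
      exact hm _ _ (by linarith) h.1 (by linarith)
    · exact hm _ _ (by linarith) h.2 (by linarith)
  have h4 : Real.tan (3 * Real.pi / 8) ^ 2 ≤ 6 := by
    have e1 : 3 * Real.pi / 8 = Real.pi / 2 - Real.pi / 8 := by ring
    rw [e1, Real.tan_pi_div_two_sub, Real.tan_eq_sin_div_cos, Real.sin_pi_div_eight,
      Real.cos_pi_div_eight, inv_div, div_pow, div_pow, div_pow]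
    have hs2 : √2 ^ 2 = 2 := Real.sq_sqrt (by norm_num)
    have hs0 : 0 ≤ √2 := Real.sqrt_nonneg 2
    have hs1 : √2 ≤ 10 / 7 := by nlinarith
    rw [Real.sq_sqrt (by linarith), Real.sq_sqrt (by linarith)]
    rw [div_div_div_cancel_right₀ (by norm_num), div_le_iff₀ (by linarith)]
    nlinarith
  have h5 : Real.tan z.arg ^ 2 ≤ 6 := by
    have h6 : |Real.tan z.arg| ^ 2 ≤ Real.tan (3 * Real.pi / 8) ^ 2 := by
      gcongr
    rw [sq_abs] at h6
    linarith
  rw [htan, div_pow, div_le_iff₀ (by positivity)] at h5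
  exact h5

theorem FE_ne_sector {e : ℝ} (he : e = 1 ∨ e = -1) {s : ℂ} (hs : s ≠ 1)
    (h : |(s - 1).arg| ≤ 3 * Real.pi / 8) (hre : s.re ≤ 3 / 2) : FE e s ≠ 0 := by
  obtain ⟨h1, h2⟩ := im_sq_le_of_arg (sub_ne_zero.mpr hs) h
  simp only [sub_re, one_re, sub_im, one_im, sub_zero] at h1 h2
  have hse : s = 1 + ((s.re - 1 : ℝ) : ℂ) + (s.im : ℂ) * I := by
    apply Complex.ext <;> simp
  have hb : s.im ^ 2 ≤ 3 / 2 := by nlinarith
  rw [hse]
  rcases he with rfl | rfl
  · exact FE_one_ne h1.le (by linarith) hb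
  · exact FE_neg_one_ne h1.le (by linarith) hb

/-- **No zero in the sector.** -/
theorem congr_sector (n : ℕ) (hn : n = 1 ∨ n = 2) (F : ℂ → ℂ) (m : ℕ) (hF : IsCont (congr n) F m)
    (s : ℂ) (hs : s ≠ 1) (h : |(s - 1).arg| ≤ 3 * Real.pi / 8) : F s ≠ 0 := by
  obtain ⟨hFd, hFL, -⟩ := hF
  have ho : IsOpen {s : ℂ | 3 / 2 < s.re} := isOpen_lt continuous_const Complex.continuous_re
  have key : ∀ e : ℝ, (e = 1 ∨ e = -1) →
      (∀ s : ℂ, 3 / 2 < s.re → FE e s = LE (congr n) s) → F s ≠ 0 := by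
    intro e he hG
    rcases le_or_gt s.re (3 / 2) with hre | hre
    · have hFG : F = FE e := by
        have h1 : EqOn F (FE e) univ := by
          refine (hFd.differentiableOn.analyticOnNhd isOpen_univ).eqOn_of_preconnected_of_eventuallyEq
            ((differentiable_FE e).differentiableOn.analyticOnNhd isOpen_univ) isPreconnected_univ
            (mem_univ (2 : ℂ)) ?_
          filter_upwards [ho.mem_nhds (show (2 : ℂ) ∈ {s : ℂ | 3 / 2 < s.re} by norm_num)] with z hz
          rw [hFL z hz, hG z hz]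
        funext z
        exact h1 (mem_univ z)
      rw [hFG]
      exact FE_ne_sector he hs h hre
    · rw [hFL s hre]
      have h2 := LE_eq' (congr n) (congr_disc_ne n (by rcases hn with rfl | rfl <;> norm_num)) (s - 1)
        (by simp only [sub_re, one_re]; linarith)
      rw [show (1 : ℂ) + (s - 1) = s by ring] at h2
      rw [h2]
      exact Complex.exp_ne_zero _
  rcases hn with rfl | rfl
  · refine key 1 (Or.inl rfl) fun s hs => ?_
    rw [LE_congr_eq 1 (by norm_num) hs]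
    have h := hasSum_FE 1 hs
    rw [← kap_one] at h
    exact (hasSum_cf 1 h).tsum_eq.symm
  · refine key (-1) (Or.inr rfl) fun s hs => ?_
    rw [LE_congr_eq 2 (by norm_num) hs]
    have h := hasSum_FE (-1) hs
    rw [← kap_two] at h
    exact (hasSum_cf 2 h).tsum_eq.symm

end Pool.Agent.Helper99.RF
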