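import Pool.Agent.Helper91.BSDL2.RealPos

set_option autoImplicit false

/-!
Two-sided bounds for the kernels of the L-series of `y² = x³ - x` and `y² = x³ - 4x`.
-/

namespace Pool.Agent.Helper99.RF

open Complex Set MeasureTheory Filter Topology HurwitzZeta Pool.Agent.Helper91.BSDL2

noncomputable abbrev ok (t : ℝ) : ℝ := oddKernel ((1 / 4 : ℝ) : UnitAddCircle) t

noncomputable abbrev ev (t : ℝ) : ℝ := evenKernel ((0 : ℝ) : UnitAddCircle) t

noncomputable abbrev eh (t : ℝ) : ℝ := evenKernel ((1 / 2 : ℝ) : UnitAddCircle) t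

lemma hasSum_int_even_odd {M : Type*} [AddCommMonoid M] [TopologicalSpace M] [ContinuousAdd M]
    {f : ℤ → M} {A B : M} (he : HasSum (fun k => f (2 * k)) A)
    (ho : HasSum (fun k => f (2 * k + 1)) B) : HasSum f (A + B) := by
  have h2 := mul_right_injective₀ (two_ne_zero' ℤ)
  replace ho := ((add_left_injective (1 : ℤ)).comp h2).hasSum_range_iff.2 ho
  refine (h2.hasSum_range_iff.2 he).add_isCompl ?_ ho
  have e1 : range (fun x : ℤ => 2 * x) = {n : ℤ | Even n} := by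
    ext x
    constructor
    · rintro ⟨y, hy⟩
      exact ⟨y, by simp only at hy; omega⟩
    · rintro ⟨y, hy⟩
      exact ⟨y, by simp only; omega⟩
  have e2 : range ((fun x : ℤ => x + 1) ∘ fun x : ℤ => 2 * x) = {n : ℤ | Odd n} := by
    ext x
    constructor
    · rintro ⟨y, hy⟩
      exact ⟨y, by simp only [Function.comp] at hy; omega⟩
    · rintro ⟨y, hy⟩
      exact ⟨y, by simp only [Function.comp]; omega⟩
  rw [e1, e2]
  exact Int.isCompl_even_odd

lemma ev_quarter {t : ℝ} (ht : 0 < t) : ev (t / 4) = ev t + eh t := by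
  have h0 := hasSum_int_evenKernel 0 (by positivity : (0 : ℝ) < t / 4)
  have h1 := hasSum_int_evenKernel 0 ht
  have h2 := hasSum_int_evenKernel (1 / 2) ht
  refine h0.unique (hasSum_int_even_odd ?_ ?_)
  · refine h1.congr_fun fun n => ?_
    congr 1
    push_cast
    ring
  · refine h2.congr_fun fun n => ?_
    congr 1
    push_cast
    ring

lemma cos_half {t : ℝ} (ht : 0 < t) :
    cosKernel ((1 / 2 : ℝ) : UnitAddCircle) (t / 4) = ev t - eh t := by
  have h0 := hasSum_int_cosKernel (1 / 2) (by positivity : (0 : ℝ) < t / 4)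
  have h1 := hasSum_ofReal.mpr (hasSum_int_evenKernel 0 ht)
  have h2 := (hasSum_ofReal.mpr (hasSum_int_evenKernel (1 / 2) ht)).neg
  have h3 := h0.unique (hasSum_int_even_odd (A := ((ev t : ℝ) : ℂ)) (B := -((eh t : ℝ) : ℂ)) ?_ ?_)
  · have h4 : ((cosKernel ((1 / 2 : ℝ) : UnitAddCircle) (t / 4) : ℝ) : ℂ)
        = ((ev t - eh t : ℝ) : ℂ) := by
      rw [h3]
      push_cast
      ring
    exact_mod_cast h4
  · refine h1.congr_fun fun n => ?_
    have e1 : cexp (2 * Real.pi * I * ((1 / 2 : ℝ) : ℂ) * ((2 * n : ℤ) : ℂ)) = 1 := by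
      rw [show 2 * (Real.pi : ℂ) * I * ((1 / 2 : ℝ) : ℂ) * ((2 * n : ℤ) : ℂ)
        = (n : ℂ) * (2 * Real.pi * I) by push_cast; ring]
      exact Complex.exp_int_mul_two_pi_mul_I n
    rw [e1, one_mul]
    congr 2
    push_cast
    ring
  · refine h2.congr_fun fun n => ?_
    have e1 : cexp (2 * Real.pi * I * ((1 / 2 : ℝ) : ℂ) * ((2 * n + 1 : ℤ) : ℂ)) = -1 := by
      rw [show 2 * (Real.pi : ℂ) * I * ((1 / 2 : ℝ) : ℂ) * ((2 * n + 1 : ℤ) : ℂ)
        = (n : ℂ) * (2 * Real.pi * I) + Real.pi * I by push_cast; ring, Complex.exp_add,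
        Complex.exp_int_mul_two_pi_mul_I, Complex.exp_pi_mul_I, one_mul]
    rw [e1, neg_one_mul]
    congr 3
    push_cast
    ring

lemma ev_fe {t : ℝ} (ht : 0 < t) : ev (4 / t) = (t / 4) ^ (1 / 2 : ℝ) * ev (t / 4) := by
  unfold ev
  rw [evenKernel_functional_equation]
  have h0 : ((0 : ℝ) : UnitAddCircle) = 0 := rfl
  rw [h0, ← evenKernel_eq_cosKernel_of_zero, one_div_div, show (4 / t : ℝ) = (t / 4)⁻¹ by
    rw [inv_div], Real.inv_rpow (by positivity), one_div, inv_inv]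

lemma eh_fe {t : ℝ} (ht : 0 < t) : eh (4 / t) = (t / 4) ^ (1 / 2 : ℝ) * (ev t - eh t) := by
  unfold eh
  rw [evenKernel_functional_equation, one_div_div, cos_half ht, show (4 / t : ℝ) = (t / 4)⁻¹ by
    rw [inv_div], Real.inv_rpow (by positivity), one_div, inv_inv]

lemma sin_quarter {t : ℝ} (ht : 0 < t) :
    sinKernel ((1 / 4 : ℝ) : UnitAddCircle) (t / 16) = 8 * ok t := by
  have h := hasSum_nat_sinKernel (1 / 4) (by positivity : (0 : ℝ) < t / 16)
  set f : ℕ → ℝ := fun n => 2 * n * Real.sin (2 * Real.pi * (1 / 4) * n)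
    * Real.exp (-Real.pi * n ^ 2 * (t / 16)) with hf
  have hinj : ∀ a : ℕ, Function.Injective (fun j : ℕ => 4 * j + a) := by
    intro a x y hxy
    simp only at hxy
    omega
  have h1 : HasSum (fun j : ℕ => f (2 * (2 * j) + 1)) (∑' j : ℕ, f (2 * (2 * j) + 1)) := by
    have := h.summable.comp_injective (hinj 1)
    refine Summable.hasSum (this.congr fun j => ?_)
    simp only [Function.comp]
    congr 1
    ring
  have h3 : HasSum (fun j : ℕ => f (2 * (2 * j + 1) + 1)) (∑' j : ℕ, f (2 * (2 * j + 1) + 1)) := by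
    have := h.summable.comp_injective (hinj 3)
    refine Summable.hasSum (this.congr fun j => ?_)
    simp only [Function.comp]
    congr 1
    ring
  have ho : HasSum (fun k : ℕ => f (2 * k + 1)) ((∑' j : ℕ, f (2 * (2 * j) + 1))
      + ∑' j : ℕ, f (2 * (2 * j + 1) + 1)) :=
    HasSum.even_add_odd (f := fun k : ℕ => f (2 * k + 1)) h1 h3
  have he : HasSum (fun k : ℕ => f (2 * k)) 0 := by
    have : (fun k : ℕ => f (2 * k)) = fun _ => (0 : ℝ) := by
      funext k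
      obtain ⟨m, rfl | rfl⟩ := Nat.even_or_odd' k
      · have := (sin_term m).1
        simp only [hf]
        rw [show 2 * (2 * m) = 4 * m by ring, this]
        ring
      · have := (sin_term m).2.2.1
        simp only [hf]
        rw [show 2 * (2 * m + 1) = 4 * m + 2 by ring, this]
        ring
    rw [this]
    exact hasSum_zero
  have hS := h.unique (he.even_add_odd ho)
  rw [hS, zero_add]
  have hk := ((hasSum_int_oddKernel (1 / 4) ht).nat_add_neg_add_one).mul_left 8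
  refine (h1.add h3).unique (hk.congr_fun fun n => ?_)
  obtain ⟨-, s1, -, s3⟩ := sin_term n
  simp only [hf]
  rw [show 2 * (2 * n) + 1 = 4 * n + 1 by ring, show 2 * (2 * n + 1) + 1 = 4 * n + 3 by ring, s1, s3]
  have e1 : -Real.pi * ((4 * n + 1 : ℕ) : ℝ) ^ 2 * (t / 16)
      = -Real.pi * ((n : ℤ) + 1 / 4 : ℝ) ^ 2 * t := by
    push_cast; ring
  have e3 : -Real.pi * ((4 * n + 3 : ℕ) : ℝ) ^ 2 * (t / 16)
      = -Real.pi * ((-((n : ℤ) + 1) : ℤ) + 1 / 4 : ℝ) ^ 2 * t := by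
    push_cast; ring
  rw [e1, e3]
  push_cast
  ring

lemma ok_fe {t : ℝ} (ht : 0 < t) : ok (16 / t) = (t / 16) ^ (3 / 2 : ℝ) * (8 * ok t) := by
  have h1 : ok (16 / t) = 1 / (16 / t) ^ (3 / 2 : ℝ)
      * sinKernel ((1 / 4 : ℝ) : UnitAddCircle) (1 / (16 / t)) := oddKernel_functional_equation _ _
  rw [h1, one_div_div, sin_quarter ht, show (16 / t : ℝ) = (t / 16)⁻¹ by rw [inv_div],
    Real.inv_rpow (by positivity), one_div, inv_inv]

lemma GK_neg_one (t : ℝ) : GK (-1) t = ok t * (ev t + eh t) := by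
  unfold GK
  ring

lemma GK_one (t : ℝ) : GK 1 t = ok t * (ev t - eh t) := by
  unfold GK
  ring

lemma GK_neg_refl {t : ℝ} (ht : 0 < t) : GK (-1) (16 / t) = t ^ 2 / 16 * GK (-1) t := by
  rw [GK_neg_one, GK_neg_one, ← ev_quarter ht, ← ev_quarter (by positivity : (0 : ℝ) < 16 / t),
    ok_fe ht, show (16 / t / 4 : ℝ) = 4 / t by ring, ev_fe ht]
  have e1 : (t / 16) ^ (3 / 2 : ℝ) * (t / 4) ^ (1 / 2 : ℝ) = t ^ 2 / 128 := by
    rw [Real.div_rpow ht.le (by norm_num), Real.div_rpow ht.le (by norm_num)]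
    have a1 : (16 : ℝ) ^ (3 / 2 : ℝ) = 64 := by
      rw [show (16 : ℝ) = 4 ^ (2 : ℝ) by norm_num, ← Real.rpow_mul (by norm_num)]
      norm_num
    have a2 : (4 : ℝ) ^ (1 / 2 : ℝ) = 2 := by
      rw [show (4 : ℝ) = 2 ^ (2 : ℝ) by norm_num, ← Real.rpow_mul (by norm_num)]
      norm_num
    have a3 : t ^ (3 / 2 : ℝ) * t ^ (1 / 2 : ℝ) = t ^ 2 := by
      rw [← Real.rpow_add ht]
      norm_num
    rw [a1, a2, div_mul_div_comm, a3]
    norm_num
  calc (t / 16) ^ (3 / 2 : ℝ) * (8 * ok t) * ((t / 4) ^ (1 / 2 : ℝ) * ev (t / 4))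
      = ((t / 16) ^ (3 / 2 : ℝ) * (t / 4) ^ (1 / 2 : ℝ)) * (8 * (ok t * ev (t / 4))) := by ring
    _ = _ := by rw [e1]; ring

lemma GK_one_refl {u : ℝ} (hu : 0 < u) :
    GK 1 (32 / u) = u ^ 2 / 64 * (ok (u / 2) * eh (u / 8)) := by
  have h1 := ok_fe (t := u / 2) (by positivity)
  have h2 := eh_fe (t := 32 / u) (by positivity)
  rw [show (16 / (u / 2) : ℝ) = 32 / u by field_simp; norm_num] at h1
  rw [show (4 / (32 / u) : ℝ) = u / 8 by field_simp; norm_num,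
    show (32 / u / 4 : ℝ) = (u / 8)⁻¹ by field_simp; norm_num, Real.inv_rpow (by positivity)] at h2
  have hpos : (0 : ℝ) < (u / 8) ^ (1 / 2 : ℝ) := by positivity
  have h3 : ev (32 / u) - eh (32 / u) = (u / 8) ^ (1 / 2 : ℝ) * eh (u / 8) := by
    rw [h2]
    field_simp
  rw [GK_one, h3, h1]
  have e1 : (u / 2 / 16) ^ (3 / 2 : ℝ) * (u / 8) ^ (1 / 2 : ℝ) = u ^ 2 / 512 := by
    rw [show (u / 2 / 16 : ℝ) = u / 32 by ring]
    have a0 : (u / 32) ^ (3 / 2 : ℝ) = (u / 8) ^ (3 / 2 : ℝ) / 8 := by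
      rw [show (u / 32 : ℝ) = (u / 8) / 4 by ring, Real.div_rpow (by positivity) (by norm_num)]
      have a2 : (4 : ℝ) ^ (3 / 2 : ℝ) = 8 := by
        rw [show (4 : ℝ) = 2 ^ (2 : ℝ) by norm_num, ← Real.rpow_mul (by norm_num)]
        norm_num
      rw [a2]
    have a3 : (u / 8) ^ (3 / 2 : ℝ) * (u / 8) ^ (1 / 2 : ℝ) = (u / 8) ^ 2 := by
      rw [← Real.rpow_add (by positivity)]
      norm_num
    rw [a0, div_mul_eq_mul_div, a3]
    ring
  calc (u / 2 / 16) ^ (3 / 2 : ℝ) * (8 * ok (u / 2)) * ((u / 8) ^ (1 / 2 : ℝ) * eh (u / 8))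
      = ((u / 2 / 16) ^ (3 / 2 : ℝ) * (u / 8) ^ (1 / 2 : ℝ)) * (8 * (ok (u / 2) * eh (u / 8))) := by
        ring
    _ = _ := by rw [e1]; ring

lemma exp_neg_three : Real.exp (-3) ≤ 1 / 20 := by
  have h := Real.exp_one_gt_d9
  have h1 : (20 : ℝ) ≤ Real.exp 1 ^ 3 := by
    have : (2.718 : ℝ) ≤ Real.exp 1 := by linarith
    calc (20 : ℝ) ≤ 2.718 ^ 3 := by norm_num
      _ ≤ Real.exp 1 ^ 3 := by gcongr
  rw [← Real.exp_nat_mul] at h1
  rw [Real.exp_neg, one_div]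
  refine inv_anti₀ (by norm_num) ?_
  have e : (3 : ℝ) = ((3 : ℕ) : ℝ) * 1 := by norm_num
  rw [e]
  exact h1

lemma exp_neg_le {x : ℝ} (hx : 3 ≤ x) : Real.exp (-x) ≤ 1 / 20 :=
  (Real.exp_le_exp.mpr (by linarith)).trans exp_neg_three

lemma exp_neg_le_sq {x : ℝ} (hx : 6 ≤ x) : Real.exp (-x) ≤ 1 / 400 := by
  have h1 : Real.exp (-x) = Real.exp (-(x / 2)) * Real.exp (-(x / 2)) := by
    rw [← Real.exp_add]; congr 1; ring
  have h2 := exp_neg_le (x := x / 2) (by linarith)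
  have h3 := Real.exp_pos (-(x / 2))
  rw [h1]
  nlinarith

lemma ok_pair (n : ℕ) {t : ℝ} (ht : 1 ≤ t) :
    0 < ((n : ℤ) + 1 / 4 : ℝ) * Real.exp (-Real.pi * ((n : ℤ) + 1 / 4) ^ 2 * t)
      + ((-((n : ℤ) + 1) : ℤ) + 1 / 4 : ℝ)
        * Real.exp (-Real.pi * ((-((n : ℤ) + 1) : ℤ) + 1 / 4) ^ 2 * t) := by
  have h1 := exp_ineq (y := t / 16) (by linarith) (2 * n)
  have e1 : -Real.pi * ((2 * (2 * n) + 3 : ℕ) : ℝ) ^ 2 * (t / 16)
      = -Real.pi * ((-((n : ℤ) + 1) : ℤ) + 1 / 4 : ℝ) ^ 2 * t := by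
    push_cast
    ring
  have e2 : -Real.pi * ((2 * (2 * n) + 1 : ℕ) : ℝ) ^ 2 * (t / 16)
      = -Real.pi * ((n : ℤ) + 1 / 4 : ℝ) ^ 2 * t := by
    push_cast
    ring
  rw [e1, e2] at h1
  push_cast at h1 ⊢
  linarith

lemma ok_lower {t : ℝ} (ht : 1 ≤ t) :
    1 / 4 * Real.exp (-(Real.pi * t / 16)) * (1 - 3 * Real.exp (-(Real.pi * t / 2))) ≤ ok t := by
  have h := (hasSum_int_oddKernel (1 / 4) (by linarith : (0 : ℝ) < t)).nat_add_neg_add_one
  have h0 := le_hasSum h 0 (fun n _ => (ok_pair n ht).le)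
  refine le_trans (le_of_eq ?_) h0
  have e1 : Real.exp (-(Real.pi * t / 16)) * Real.exp (-(Real.pi * t / 2))
      = Real.exp (-Real.pi * ((-(((0 : ℕ) : ℤ) + 1) : ℤ) + 1 / 4 : ℝ) ^ 2 * t) := by
    rw [← Real.exp_add]
    congr 1
    push_cast
    ring
  have e2 : Real.exp (-(Real.pi * t / 16))
      = Real.exp (-Real.pi * ((((0 : ℕ) : ℤ) : ℝ) + 1 / 4) ^ 2 * t) := by
    congr 1
    push_cast
    ring
  calc 1 / 4 * Real.exp (-(Real.pi * t / 16)) * (1 - 3 * Real.exp (-(Real.pi * t / 2)))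
      = 1 / 4 * Real.exp (-(Real.pi * t / 16)) - 3 / 4 * (Real.exp (-(Real.pi * t / 16))
        * Real.exp (-(Real.pi * t / 2))) := by ring
    _ = _ := by
      rw [e1, ← e2]
      push_cast
      ring

lemma ok_upper {t : ℝ} (ht : 1 ≤ t) : ok t ≤ 1 / 4 * Real.exp (-(Real.pi * t / 16)) := by
  have h := (hasSum_int_oddKernel (1 / 4) (by linarith : (0 : ℝ) < t)).nat_add_neg_add_one
  set A : ℕ → ℝ := fun n => ((n : ℝ) + 1 / 4) * Real.exp (-Real.pi * ((n : ℝ) + 1 / 4) ^ 2 * t) with hA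
  have key : ∀ N : ℕ, ∑ n ∈ Finset.range N,
      (((n : ℤ) + 1 / 4 : ℝ) * Real.exp (-Real.pi * ((n : ℤ) + 1 / 4) ^ 2 * t)
      + ((-((n : ℤ) + 1) : ℤ) + 1 / 4 : ℝ)
        * Real.exp (-Real.pi * ((-((n : ℤ) + 1) : ℤ) + 1 / 4) ^ 2 * t)) ≤ A 0 - A N := by
    intro N
    induction N with
    | zero => simp
    | succ N ih =>
      rw [Finset.sum_range_succ]
      have h1 := exp_ineq (y := t / 16) (by linarith) (2 * N + 1)
      have e1 : -Real.pi * ((2 * (2 * N + 1) + 3 : ℕ) : ℝ) ^ 2 * (t / 16)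
          = -Real.pi * (((N + 1 : ℕ) : ℝ) + 1 / 4) ^ 2 * t := by
        push_cast
        ring
      have e2 : -Real.pi * ((2 * (2 * N + 1) + 1 : ℕ) : ℝ) ^ 2 * (t / 16)
          = -Real.pi * ((-((N : ℤ) + 1) : ℤ) + 1 / 4 : ℝ) ^ 2 * t := by
        push_cast
        ring
      rw [e1, e2] at h1
      have e3 : ((N : ℤ) + 1 / 4 : ℝ) * Real.exp (-Real.pi * ((N : ℤ) + 1 / 4) ^ 2 * t) = A N := by
        simp only [hA]
        push_cast
        ring
      have e4 : A (N + 1) = (((N + 1 : ℕ) : ℝ) + 1 / 4)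
          * Real.exp (-Real.pi * (((N + 1 : ℕ) : ℝ) + 1 / 4) ^ 2 * t) := rfl
      rw [e3]
      rw [e4]
      push_cast at h1 ih ⊢
      linarith
  have hA0 : A 0 = 1 / 4 * Real.exp (-(Real.pi * t / 16)) := by
    simp only [hA]
    push_cast
    rw [show -Real.pi * (0 + 1 / 4) ^ 2 * t = -(Real.pi * t / 16) by ring]
    ring
  rw [← hA0]
  refine le_of_tendsto h.tendsto_sum_nat (Eventually.of_forall fun N => ?_)
  have h2 : 0 ≤ A N := by simp only [hA]; positivity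
  exact (key N).trans (by linarith)

lemma ev_ge_one {t : ℝ} (ht : 0 < t) : 1 ≤ ev t := by
  have h := hasSum_int_evenKernel 0 ht
  have h0 := le_hasSum h 0 (fun n _ => (Real.exp_pos _).le)
  refine le_trans (le_of_eq ?_) h0
  simp

lemma ev_le {t : ℝ} (ht : 0 < t) (hq : Real.exp (-(Real.pi * t)) ≤ 1 / 20) : ev t ≤ 21 / 19 := by
  have h := (hasSum_int_evenKernel 0 ht).nat_add_neg_add_one
  set q := Real.exp (-(Real.pi * t)) with hqd
  have hq0 : 0 < q := Real.exp_pos _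
  have hq1 : q < 1 := by linarith
  have hg := (hasSum_geometric_of_lt_one hq0.le hq1).mul_left (1 + q)
  have h1 : ev t ≤ (1 + q) * (1 - q)⁻¹ := by
    refine hasSum_le (fun n => ?_) h hg
    have e1 : ∀ m : ℕ, Real.exp (-Real.pi * ((m : ℝ)) ^ 2 * t) ≤ q ^ m := by
      intro m
      rw [hqd, ← Real.exp_nat_mul]
      refine Real.exp_le_exp.mpr ?_
      have hm : (m : ℝ) ≤ (m : ℝ) ^ 2 := by
        exact_mod_cast Nat.le_self_pow two_ne_zero m
      have := Real.pi_pos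
      have h3 : Real.pi * t * m ≤ Real.pi * t * (m : ℝ) ^ 2 :=
        mul_le_mul_of_nonneg_left hm (by positivity)
      linarith
    have e2 := e1 n
    have e3 := e1 (n + 1)
    have e4 : Real.exp (-Real.pi * (((n : ℤ) : ℝ) + 0) ^ 2 * t)
        = Real.exp (-Real.pi * ((n : ℝ)) ^ 2 * t) := by
      congr 1; push_cast; ring
    have e5 : Real.exp (-Real.pi * (((-((n : ℤ) + 1) : ℤ) : ℝ) + 0) ^ 2 * t)
        = Real.exp (-Real.pi * (((n + 1 : ℕ) : ℝ)) ^ 2 * t) := by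
      congr 1; push_cast; ring
    have e6 : q ^ (n + 1) = q * q ^ n := by ring
    rw [e4, e5]
    rw [e6] at e3
    linarith
  refine h1.trans ?_
  rw [← div_eq_mul_inv, div_le_div_iff₀ (by linarith) (by norm_num)]
  linarith

lemma eh_lower {t : ℝ} (ht : 0 < t) : 2 * Real.exp (-(Real.pi * t / 4)) ≤ eh t := by
  have h := (hasSum_int_evenKernel (1 / 2) ht).nat_add_neg_add_one
  have h0 := le_hasSum h 0 (fun n _ => by positivity)
  refine le_trans (le_of_eq ?_) h0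
  have e1 : -Real.pi * ((((0 : ℕ) : ℤ) : ℝ) + 1 / 2) ^ 2 * t = -(Real.pi * t / 4) := by
    push_cast; ring
  have e2 : -Real.pi * ((-(((0 : ℕ) : ℤ) + 1) : ℤ) + 1 / 2 : ℝ) ^ 2 * t = -(Real.pi * t / 4) := by
    push_cast; ring
  rw [e1, e2]
  ring

lemma eh_upper {t : ℝ} (ht : 0 < t) (hq : Real.exp (-(2 * Real.pi * t)) ≤ 1 / 20) :
    eh t ≤ 2 * Real.exp (-(Real.pi * t / 4)) * (20 / 19) := by
  have h := (hasSum_int_evenKernel (1 / 2) ht).nat_add_neg_add_one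
  set q := Real.exp (-(2 * Real.pi * t)) with hqd
  have hq0 : 0 < q := Real.exp_pos _
  have hq1 : q < 1 := by linarith
  have hg := (hasSum_geometric_of_lt_one hq0.le hq1).mul_left (2 * Real.exp (-(Real.pi * t / 4)))
  have h1 : eh t ≤ 2 * Real.exp (-(Real.pi * t / 4)) * (1 - q)⁻¹ := by
    refine hasSum_le (fun n => ?_) h hg
    have e1 : Real.exp (-Real.pi * ((n : ℝ) + 1 / 2) ^ 2 * t)
        ≤ Real.exp (-(Real.pi * t / 4)) * q ^ n := by
      rw [hqd, ← Real.exp_nat_mul, ← Real.exp_add]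
      refine Real.exp_le_exp.mpr ?_
      have hm : (n : ℝ) ≤ (n : ℝ) ^ 2 := by
        exact_mod_cast Nat.le_self_pow two_ne_zero n
      have := Real.pi_pos
      have h3 : Real.pi * t * n ≤ Real.pi * t * (n : ℝ) ^ 2 :=
        mul_le_mul_of_nonneg_left hm (by positivity)
      linarith
    have e4 : Real.exp (-Real.pi * (((n : ℤ) : ℝ) + 1 / 2) ^ 2 * t)
        = Real.exp (-Real.pi * ((n : ℝ) + 1 / 2) ^ 2 * t) := by
      congr 1
    have e5 : Real.exp (-Real.pi * (((-((n : ℤ) + 1) : ℤ) : ℝ) + 1 / 2) ^ 2 * t)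
        = Real.exp (-Real.pi * ((n : ℝ) + 1 / 2) ^ 2 * t) := by
      congr 1; push_cast; ring
    rw [e4, e5]
    linarith
  refine h1.trans ?_
  have h2 : (1 - q)⁻¹ ≤ 20 / 19 := by
    rw [inv_le_comm₀ (by linarith) (by norm_num)]
    linarith
  exact mul_le_mul_of_nonneg_left h2 (by positivity)

end Pool.Agent.Helper99.RF
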